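import Pool.Agent.H110.R15.Base

namespace Pool.Agent.H110.R15.G5

open Pool.Agent.H110.Refl

open Pool.Agent.H110.Refl

theorem cross_not_disjoint (a b c d : Pt) (h1 : turn a b c * turn a b d < 0)
    (h2 : turn c d a * turn c d b < 0) :
    ¬ Disjoint (segment ℝ a b \ {b}) (segment ℝ c d \ {d}) := by
  obtain ⟨a1, a2⟩ := a
  obtain ⟨b1, b2⟩ := b
  obtain ⟨c1, c2⟩ := c
  obtain ⟨d1, d2⟩ := d
  simp only [turn] at h1 h2
  set A := (b1 - a1) * (c2 - a2) - (b2 - a2) * (c1 - a1) with hA
  set B := (b1 - a1) * (d2 - a2) - (b2 - a2) * (d1 - a1) with hB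
  set C := (d1 - c1) * (a2 - c2) - (d2 - c2) * (a1 - c1) with hC
  set D := (d1 - c1) * (b2 - c2) - (d2 - c2) * (b1 - c1) with hD
  have hAB : A - B ≠ 0 := by
    intro h
    have : A = B := by linarith
    rw [this] at h1
    nlinarith [mul_self_nonneg B]
  have hCD : C - D ≠ 0 := by
    intro h
    have : C = D := by linarith
    rw [this] at h2
    nlinarith [mul_self_nonneg D]
  have hrel : A - B = -(C - D) := by
    rw [hA, hB, hC, hD]; ring
  have hA0 : A ≠ 0 := by rintro h; rw [h] at h1; simp at h1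
  have hB0 : B ≠ 0 := by rintro h; rw [h] at h1; simp at h1
  have hC0 : C ≠ 0 := by rintro h; rw [h] at h2; simp at h2
  have hD0 : D ≠ 0 := by rintro h; rw [h] at h2; simp at h2
  have hsq : ∀ x y : ℝ, x * y < 0 → 0 < x / (x - y) ∧ 0 < -y / (x - y) := by
    intro x y hxy
    rcases mul_neg_iff.1 hxy with ⟨hx, hy⟩ | ⟨hx, hy⟩
    · exact ⟨div_pos hx (by linarith), div_pos (by linarith) (by linarith)⟩
    · exact ⟨div_pos_of_neg_of_neg hx (by linarith), div_pos_of_neg_of_neg (by linarith) (by linarith)⟩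
  obtain ⟨ht0, ht1⟩ := hsq C D h2
  obtain ⟨hs0, hs1⟩ := hsq A B h1
  set t := C / (C - D) with ht
  set t' := -D / (C - D) with ht'
  set s := A / (A - B) with hs
  set s' := -B / (A - B) with hs'
  have htt : t' + t = 1 := by rw [ht, ht']; field_simp; ring
  have hss : s' + s = 1 := by rw [hs, hs']; field_simp; ring
  have hx1 : t' * a1 + t * b1 = s' * c1 + s * d1 := by
    rw [ht, ht', hs, hs', hrel]
    field_simp
    rw [hA, hB, hC, hD]
    ring
  have hx2 : t' * a2 + t * b2 = s' * c2 + s * d2 := by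
    rw [ht, ht', hs, hs', hrel]
    field_simp
    rw [hA, hB, hC, hD]
    ring
  rw [Set.not_disjoint_iff]
  refine ⟨(t' * a1 + t * b1, t' * a2 + t * b2), ⟨⟨t', t, ht1.le, ht0.le, htt, ?_⟩, ?_⟩,
    ⟨⟨s', s, hs1.le, hs0.le, hss, ?_⟩, ?_⟩⟩
  · simp
  · rw [Set.mem_singleton_iff, Prod.mk.injEq]
    rintro ⟨e1, e2⟩
    have f1 : t' * (b1 - a1) = 0 := by
      have : t = 1 - t' := by linarith
      rw [this] at e1; linarith
    have f2 : t' * (b2 - a2) = 0 := by
      have : t = 1 - t' := by linarith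
      rw [this] at e2; linarith
    have g1 : b1 - a1 = 0 := by
      rcases mul_eq_zero.1 f1 with h | h
      · linarith
      · exact h
    have g2 : b2 - a2 = 0 := by
      rcases mul_eq_zero.1 f2 with h | h
      · linarith
      · exact h
    apply hA0
    rw [hA, g1, g2]; ring
  · rw [hx1, hx2]; simp
  · rw [hx1, hx2, Set.mem_singleton_iff, Prod.mk.injEq]
    rintro ⟨e1, e2⟩
    have f1 : s' * (d1 - c1) = 0 := by
      have : s = 1 - s' := by linarith
      rw [this] at e1; linarith
    have f2 : s' * (d2 - c2) = 0 := by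
      have : s = 1 - s' := by linarith
      rw [this] at e2; linarith
    have g1 : d1 - c1 = 0 := by
      rcases mul_eq_zero.1 f1 with h | h
      · linarith
      · exact h
    have g2 : d2 - c2 = 0 := by
      rcases mul_eq_zero.1 f2 with h | h
      · linarith
      · exact h
    apply hC0
    rw [hC, g1, g2]; ring

theorem toPt_inj : Function.Injective toPt := by
  rintro ⟨a, b⟩ ⟨c, d⟩ h
  simp only [toPt, Prod.mk.injEq, Int.cast_inj] at h
  rw [h.1, h.2]

theorem card_PS (Q : List (ℤ × ℤ)) (hn : Q.Nodup) : (PS Q).card = Q.length := by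
  classical
  unfold PS
  rw [List.toFinset_card_of_nodup (hn.map toPt_inj), List.length_map]

theorem turn_toPt (a b c : ℤ × ℤ) : turn (toPt a) (toPt b) (toPt c) = (zturn a b c : ℝ) := by
  simp only [turn, toPt, zturn]
  push_cast
  ring

theorem exists_cyc (Q : List (ℤ × ℤ)) (h3 : 3 ≤ Q.length) (hn : Q.Nodup) (v : ℕ → Pt)
    (hv : IsPolygonization (PS Q) v) : ∃ α, Cyc Q α ∧ ∀ i, v i = vert Q (α i) := by
  obtain ⟨⟨hper, hsimple⟩, himg⟩ := hv
  have hcard := card_PS Q hn
  have hinj : Set.InjOn v (Finset.range (PS Q).card : Set ℕ) := by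
    rw [← Finset.card_image_iff, himg, Finset.card_range]
  have hn0 : 0 < Q.length := by omega
  rw [hcard] at hper hsimple himg hinj
  have hmodv : ∀ i, v (i % Q.length) = v i := by
    intro i
    have h1 : ∀ k j, v (j + k * Q.length) = v j := by
      intro k
      induction k with
      | zero => intro j; simp
      | succ k ih =>
        intro j
        have : j + (k + 1) * Q.length = (j + k * Q.length) + Q.length := by ring
        rw [this, hper, ih]
    conv_rhs => rw [← Nat.mod_add_div i Q.length, mul_comm]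
    rw [h1]
  have hex : ∀ i, i < Q.length → ∃ k, k < Q.length ∧ v i = toPt (Q.getD k (0, 0)) := by
    intro i hi
    have h1 : v i ∈ PS Q := by
      rw [← himg]
      exact Finset.mem_image_of_mem _ (Finset.mem_range.2 hi)
    have h2 : v i ∈ Q.map toPt := by
      classical
      unfold PS at h1
      exact List.mem_toFinset.1 h1
    obtain ⟨q, hq, hqv⟩ := List.mem_map.1 h2
    obtain ⟨k, hk, hkq⟩ := List.mem_iff_getElem.1 hq
    refine ⟨k, hk, ?_⟩
    rw [List.getD_eq_getElem _ _ hk, hkq, hqv]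
  have hex' : ∀ i : ℕ, ∃ k, k < Q.length ∧ v i = toPt (Q.getD k (0, 0)) := by
    intro i
    obtain ⟨k, hk, h⟩ := hex (i % Q.length) (Nat.mod_lt _ hn0)
    exact ⟨k, hk, by rw [← hmodv, h]⟩
  choose β hβ hβv using hex'
  have hvα : ∀ i, v i = vert Q (β (i % Q.length)) := by
    intro i
    rw [vert, zv, Nat.mod_eq_of_lt (hβ _), ← hβv, hmodv]
  have hmod1 : ∀ i, v (i % Q.length + 1) = v (i + 1) := by
    intro i
    rw [← hmodv (i % Q.length + 1), ← hmodv (i + 1), Nat.mod_add_mod]
  refine ⟨fun i => β (i % Q.length), ⟨?_, ?_, ?_, ?_⟩, hvα⟩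
  · intro i
    simp only [Nat.add_mod_right]
  · intro i
    exact hβ _
  · intro i hi j hj h
    have h' : v i = v j := by
      rw [hvα i, hvα j]
      exact congrArg (vert Q) h
    exact hinj (Finset.mem_coe.2 (Finset.mem_range.2 hi)) (Finset.mem_coe.2 (Finset.mem_range.2 hj)) h'
  · intro i j hij _ _ _ hcon
    have hne : i % Q.length ≠ j % Q.length := by
      intro h
      apply hij
      show β (i % Q.length) = β (j % Q.length)
      rw [h]
    have hd := hsimple (i % Q.length) (Nat.mod_lt _ hn0) (j % Q.length) (Nat.mod_lt _ hn0) hne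
    rw [hmod1, hmod1, hmodv, hmodv] at hd
    refine cross_not_disjoint _ _ _ _ ?_ ?_ hd
    · rw [hvα i, hvα (i + 1), hvα j, hvα (j + 1)]
      unfold vert
      rw [turn_toPt, turn_toPt]
      exact_mod_cast hcon.1
    · rw [hvα i, hvα (i + 1), hvα j, hvα (j + 1)]
      unfold vert
      rw [turn_toPt, turn_toPt]
      exact_mod_cast hcon.2

end Pool.Agent.H110.R15.G5
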