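import Pool.Agent.H110.R15.Fin1

namespace Pool.Agent.H110.R15

open Pool.Agent.H110.Refl

theorem le_rho : 5 ≤ rho (PS PL) := by
  have h3 : 3 ≤ PL.length := by rw [PL_length]; omega
  have hne : {k | ∃ v, IsPolygonization (PS PL) v ∧ reflexCount (PS PL).card v = k}.Nonempty :=
    ⟨_, vert PL, G4.isPolygonization_of_chk PL h3 PL_nodup PL_chk, rfl⟩
  obtain ⟨v, hv, hk⟩ := Nat.sInf_mem hne
  have h5 := G6.le_reflexCount (fun Q h1 h2 v h3 => G5.exists_cyc Q h1 h2 v h3) (fun Q h => G4.card_PS Q h) PL h3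
    PL_nodup 5 (fun α h => main h) v hv
  unfold rho
  rw [← hk]
  exact h5

theorem zv_mem (i : ℕ) : zv PL i ∈ PL := by
  unfold zv
  rw [List.getD_eq_getElem _ _ (Nat.mod_lt _ (by rw [PL_length]; omega))]
  exact List.getElem_mem _

end Pool.Agent.H110.R15
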