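import Pool.Agent.H110.R15.AlgB

/-! Part of the exhaustive search, see `Pool.Agent.H110.R15.AlgB`. -/

namespace Pool.Agent.H110.R15

theorem kA_7_0 : run CH 2 7 4 7
  0xfffc0bffe06fff03bff81effc0fbfc07efe03fbf01fefc0ffbc07fef03ffb81ffec0fffa07c5e0dc2e9765dcfb5b8
  0x40000200001000008000040000200001000000000040000200001000008000040000200000000000000007c5e207f7e
  0x7f7e = true := by decide +kernel

theorem kC_4_0 : run CH 2 6 5 4
  0xfff80bffc06fff03bff81effc0fbfe07eff03fbf81fefc0ffbe07fee03ffb81ffec0fff801fec0da5697568ccd428
  0x40000200001000008000040000200001000008000040000200000000008000040000200000000000000006002107fee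
  0x7fee = true := by decide +kernel

theorem kB_5_0 : run CHm 3 5 6 5
  0xfbf80bdfc06efe03b7f01ebf80fafe0022103e3f01faf80ffbc07eee03f7b01fbe80fdf8003000bc0c80018c2441f
  0x40000200001000008000040000200001000008000040000000001000008000040000200000000000000000300107fde
  0x7fde = true := by decide +kernel

theorem kB_2_0 : run CHm 3 5 6 2
  0x80580b42c02fed01bf6806fb407bda01eed00fb6807eb403f9a0600600ff281ffe80c02801fe81fe824e83e101490
  0x40000200001000008000040000200001000008000040000200001000008000000000200000000000000001fe8107ffa
  0x7ffa = true := by decide +kernel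

theorem kD_12_0 : run CHm 2 6 5 12
  0xc07c0a43e06ffe00bf0006f8007bc001ee000fb0007e8003f800700f0380b81c06c0e03a0601e1e83bd3d5d1c8408
  0x40000200000000008000040000200001000008000040000200001000008000040000200000000000000000fe0106ffe
  0x6ffe = true := by decide +kernel

end Pool.Agent.H110.R15
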