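import Pool.Agent.H110.R15.AlgB

/-! Part of the exhaustive search, see `Pool.Agent.H110.R15.AlgB`. -/

namespace Pool.Agent.H110.R15

theorem kA_9_0 : run CH 2 7 4 9
  0xfffc0bffe06fff03bff81effc0fbfc07eff03fbf81fefc0ffbe07fef03ffb81ffec0fffa07dfe0dc569766dcfc2b8
  0x40000200001000008000040000000001000008000040000200001000008000040000200000000000000007dfe207dfe
  0x7dfe = true := by decide +kernel

theorem kD_4_0 : run CHm 2 6 5 4
  0xfffc0bffe06ffe03bff01eff80fbfc07efe03fbf01fef80ffbc07fee03ffb01ffe80fffa060020dbac97619ceca38
  0x40000200001000008000040000200001000008000040000200000000008000040000200000000000000001fec107fee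
  0x7fee = true := by decide +kernel

theorem kC_6_0 : run CH 2 6 5 6
  0xfdf80bffc06ffe03bff81effc0fbfe07eef01fb781fef80ffbe07e6e03ffb01ffe80fff800fa01d85456e68cc4927
  0x4000020000100000800004000020000100000800000000020000100000800004000020000000000000000701e107fbe
  0x7fbe = true := by decide +kernel

theorem kD_1_0 : run CHm 2 6 5 1
  0x800c0bfde02ffe01bff00eff807bfc03efe01fbf00fef807fbc01fee01ffb00ffe80fff806000063ab3e61626c9f3
  0x40000200001000008000040000200001000008000040000200001000008000040000000000000000000001ffc107ffc
  0x7ffc = true := by decide +kernel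

theorem kB_10_0 : run CHm 3 5 6 10
  0xf1780bcbc06e7e03bbf01eff807b5e00ea10039081f07803f0207c4e03f2b01f9680fcb8003a0047e403f283d451c
  0x400002000010000080000000002000010000080000400002000010000080000400002000000000000000003a0107bfe
  0x7bfe = true := by decide +kernel

theorem kA_12_0 : run CH 2 7 4 12
  0xc07c0a43e06ffe00bf0006f8007bc001ee000fb0007e8003f800700f0380b81c06c0e03a0601e1e83bd3d5d1c8408
  0x4000020000000000800004000020000100000800004000020000100000800004000020000000000000000601e206ffe
  0x6ffe = true := by decide +kernel

theorem kD_5_0 : run CHm 2 6 5 5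
  0xfbfc0bdfe06eff03b7f81ebfc0fafc0022003e3f81fafc0ffbc07eef03f7b81fbec0fdfa07cde0be6e8016dc619af
  0x40000200001000008000040000200001000008000040000000001000008000040000200000000000000000300107fde
  0x7fde = true := by decide +kernel

end Pool.Agent.H110.R15
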