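import Pool.Agent.H110.R15.AlgB

/-! Part of the exhaustive search, see `Pool.Agent.H110.R15.AlgB`. -/

namespace Pool.Agent.H110.R15

theorem kA_4_0 : run CH 2 7 4 4
  0xfffc0bffe06ffe03bff01eff80fbfc07efe03fbf01fef80ffbc07fee03ffb01ffe80fffa060020dbac97619ceca38
  0x40000200001000008000040000200001000008000040000200000000008000040000200000000000000006002207fee
  0x7fee = true := by decide +kernel

theorem kC_7_0 : run CH 2 6 5 7
  0xfff80bffc06ffe03bff01eff80fbfe07eff03fbf01fef80ffbe07fee03ffb01ffe80fff8003200d9d497518cbe528
  0x40000200001000008000040000200001000000000040000200001000008000040000200000000000000007c5e107f7e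
  0x7f7e = true := by decide +kernel

theorem kA_10_0 : run CH 2 7 4 10
  0xf17c0bcbe06e7f03bbf81eff807b5c00ea00039001f07c03f0007c4f03f2b81f96c0fcba0785e04a3e0401d40f1ac
  0x4000020000100000800000000020000100000800004000020000100000800004000020000000000000000785e207bfe
  0x7bfe = true := by decide +kernel

theorem kC_5_0 : run CH 2 6 5 5
  0xfbf80bdfc06efe03b7f01ebf80fafe0022103e3f01faf80ffbc07eee03f7b01fbe80fdf8003000bc0c80018c2441f
  0x40000200001000008000040000200001000008000040000000001000008000040000200000000000000007cde107fde
  0x7fde = true := by decide +kernel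

theorem kC_13_0 : run CH 2 6 5 13
  0xfffc0bffc06fff03bff81effc0fbfe07eff03fbf81fefc0ffbe07fef03ffb81ffec0fffa05ffe0dc569756dced4b8
  0x40000000001000008000040000200001000008000040000200001000008000040000200000000000000000000105ffe
  0x5ffe = true := by decide +kernel

theorem kB_11_0 : run CHm 3 5 6 11
  0xe1780b4bc06a5e03bff002e8407b4a00ea10079081e07801f020784e03c2b01e9680f0b8007a01ffe2091e8199117
  0x400002000010000000000400002000010000080000400002000010000080000400002000000000000000007a01077fe
  0x77fe = true := by decide +kernel

theorem kC_1_0 : run CH 2 6 5 1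
  0x80080bfdc02fff01bff80effc07bfe03eff01fbf80fefc07fbe01fef01ffb80ffec0fff801ffc062553e56a24d473
  0x40000200001000008000040000200001000008000040000200001000008000040000000000000000000006000107ffc
  0x7ffc = true := by decide +kernel

end Pool.Agent.H110.R15
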