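import Pool.Agent.H110.R15.AlgB

/-! Part of the exhaustive search, see `Pool.Agent.H110.R15.AlgB`. -/

namespace Pool.Agent.H110.R15

theorem kA_8_1 : run CH 2 7 4 8
  0xfffc0bffe06fff03bff81effc0fbfc07efe03fbf81fefc0ffbe07fef03ffb81ffec0fffa07cfe0dc369766dcfbab8
  0x40000200001000008000040000200000000008000040000200001000008000040000200000000000000007cfe207efe
  0x669a = true := by decide +kernel

theorem kA_1_0 : run CH 2 7 4 1
  0x800c0bfde02ffe01bff00eff807bfc03efe01fbf00fef807fbc01fee01ffb00ffe80fff806000063ab3e61626c9f3
  0x40000200001000008000040000200001000008000040000200001000008000040000000000000000000006000207ffc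
  0x7ffc = true := by decide +kernel

theorem kB_8_0 : run CHm 3 5 6 8
  0xfff80bffc06ffe03bff01eff80fbfe07efe03fbf01fef80ffbc07fee03ffb01ffe80fff8002000d9ac97518cbdc28
  0x40000200001000008000040000200000000008000040000200001000008000040000200000000000000000200107efe
  0x7efe = true := by decide +kernel

theorem kD_8_0 : run CHm 2 6 5 8
  0xfffc0bffe06fff03bff81effc0fbfc07efe03fbf81fefc0ffbe07fef03ffb81ffec0fffa07cfe0dc369766dcfbab8
  0x40000200001000008000040000200000000008000040000200001000008000040000200000000000000000200107efe
  0x7efe = true := by decide +kernel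

theorem kC_3_0 : run CH 2 6 5 3
  0xc0780be7c06fef01bf780efb407bde03eed00fb6807eb407f9a0600e03ffb01ffe80f43801fe010f8322a681c2a83
  0x40000200001000008000040000200001000008000040000200001000000000040000200000000000000006016107ff6
  0x7ff6 = true := by decide +kernel

theorem kC_11_0 : run CH 2 6 5 11
  0xe1780b4bc06a5e03bff002e8407b4a00ea10079081e07801f020784e03c2b01e9680f0b8007a01ffe2091e8199117
  0x4000020000100000000004000020000100000800004000020000100000800004000020000000000000000705e1077fe
  0x77fe = true := by decide +kernel

theorem kA_13_0 : run CH 2 7 4 13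
  0xfff80bffc06ffe03bff01eff80fbfc07efe03fbf01fef80ffbc07fee03ffb01ffe80fff8000000d9ac97518cbca28
  0x40000000001000008000040000200001000008000040000200001000008000040000200000000000000000000205ffe
  0x5ffe = true := by decide +kernel

end Pool.Agent.H110.R15
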