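import Pool.Agent.H110.R15.K01

/-! Part of the exhaustive search, see `Pool.Agent.H110.R15.AlgB`. -/

namespace Pool.Agent.H110.R15

theorem kA_8_0 : run CH 2 7 4 8
  0xfffc0bffe06fff03bff81effc0fbfc07efe03fbf81fefc0ffbe07fef03ffb81ffec0fffa07cfe0dc369766dcfbab8
  0x40000200001000008000040000200000000008000040000200001000008000040000200000000000000007cfe207efe
  0x1864 = true := by decide +kernel

theorem kB_6_0 : run CHm 3 5 6 6
  0xfdf80bffc06ffe03bff81effc0fbfe07eef01fb781fef80ffbe07e6e03ffb01ffe80fff800fa01d85456e68cc4927
  0x40000200001000008000040000200001000008000000000200001000008000040000200000000000000000fa0107fbe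
  0x7fbe = true := by decide +kernel

theorem kD_14_0 : run CHm 2 6 5 14
  0xfff80bffe06ffe03bff01eff80fbfc07efe03fbf01fef80ffbc07fee03ffb01ffe80fff8020000d9ac97618ccca28
  0x200001000008000040000200001000008000040000200001000008000040000200000000000000001ffe103ffe
  0x3ffe = true := by decide +kernel

theorem kD_7_0 : run CHm 2 6 5 7
  0xfffc0bffe06fff03bff81effc0fbfc07efe03fbf01fefc0ffbc07fef03ffb81ffec0fffa07c5e0dc2e9765dcfb5b8
  0x40000200001000008000040000200001000000000040000200001000008000040000200000000000000000320107f7e
  0x7f7e = true := by decide +kernel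

theorem kC_10_0 : run CH 2 6 5 10
  0xf1780bcbc06e7e03bbf01eff807b5e00ea10039081f07803f0207c4e03f2b01f9680fcb8003a0047e403f283d451c
  0x4000020000100000800000000020000100000800004000020000100000800004000020000000000000000785e107bfe
  0x7bfe = true := by decide +kernel

theorem kA_2_0 : run CH 2 7 4 2
  0x805c0b42e02fec01bf6006fb007bd801eec00fb6007eb003f980600700ff201ffe80c02a060121ffda4e8f3120b40
  0x40000200001000008000040000200001000008000040000200001000008000000000200000000000000006012207ffa
  0x7ffa = true := by decide +kernel

theorem kB_12_0 : run CHm 3 5 6 12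
  0xc0780a43c06ffe00bf0806f8407bc201ee100fb0807e8403f820700e0380b01c0680e03800fe01e6e1d3ca81a0478
  0x40000200000000008000040000200001000008000040000200001000008000040000200000000000000000fe0106ffe
  0x6ffe = true := by decide +kernel

theorem kD_13_0 : run CHm 2 6 5 13
  0xfff80bffc06ffe03bff01eff80fbfc07efe03fbf01fef80ffbc07fee03ffb01ffe80fff8000000d9ac97518cbca28
  0x40000000001000008000040000200001000008000040000200001000008000040000200000000000000005ffe105ffe
  0x5ffe = true := by decide +kernel

end Pool.Agent.H110.R15
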