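import Pool.Agent.H110.R15.K02

/-! Part of the exhaustive search, see `Pool.Agent.H110.R15.AlgB`. -/

namespace Pool.Agent.H110.R15

theorem kA_6_0 : run CH 2 7 4 6
  0xfdfc0bffe06fff03bff01eff80fbfc07eee01fb701fef80ffbc07e6f03ffb81ffec0fffa0701e1d9ae56f1dcf5337
  0x4000020000100000800004000020000100000800000000020000100000800004000020000000000000000701e207fbe
  0x7fbe = true := by decide +kernel

theorem kB_7_0 : run CHm 3 5 6 7
  0xfff80bffc06ffe03bff01eff80fbfe07eff03fbf01fef80ffbe07fee03ffb01ffe80fff8003200d9d497518cbe528
  0x40000200001000008000040000200001000000000040000200001000008000040000200000000000000000320107f7e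
  0x7f7e = true := by decide +kernel

theorem kA_5_0 : run CH 2 7 4 5
  0xfbfc0bdfe06eff03b7f81ebfc0fafc0022003e3f81fafc0ffbc07eef03f7b81fbec0fdfa07cde0be6e8016dc619af
  0x40000200001000008000040000200001000008000040000000001000008000040000200000000000000007cde207fde
  0x7fde = true := by decide +kernel

theorem kB_1_0 : run CHm 3 5 6 1
  0x80080bfdc02fff01bff80effc07bfe03eff01fbf80fefc07fbe01fef01ffb80ffec0fff801ffc062553e56a24d473
  0x40000200001000008000040000200001000008000040000200001000008000040000000000000000000001ffc107ffc
  0x7ffc = true := by decide +kernel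

theorem kA_11_0 : run CH 2 7 4 11
  0xe17c0b4be06a5f03bff002e8007b4800ea00079001e07c01f000784f03c2b81e96c0f0ba0705e001bc0929d1cdda8
  0x4000020000100000000004000020000100000800004000020000100000800004000020000000000000000705e2077fe
  0x77fe = true := by decide +kernel

theorem kD_10_0 : run CHm 2 6 5 10
  0xf17c0bcbe06e7f03bbf81eff807b5c00ea00039001f07c03f0007c4f03f2b81f96c0fcba0785e04a3e0401d40f1ac
  0x400002000010000080000000002000010000080000400002000010000080000400002000000000000000003a0107bfe
  0x7bfe = true := by decide +kernel

theorem kC_2_0 : run CH 2 6 5 2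
  0x80580b42c02fed01bf6806fb407bda01eed00fb6807eb403f9a0600600ff281ffe80c02801fe81fe824e83e101490
  0x40000200001000008000040000200001000008000040000200001000008000000000200000000000000006012107ffa
  0x7ffa = true := by decide +kernel

theorem kB_9_0 : run CHm 3 5 6 9
  0xfff80bffc06ffe03bff01eff80fbfc07efe03fbf01fef80ffbc07fee03ffb01ffe80fff8000000d9ac97518cbca28
  0x40000200001000008000040000000001000008000040000200001000008000040000200000000000000000000107dfe
  0x7dfe = true := by decide +kernel

end Pool.Agent.H110.R15
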