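import Pool.Agent.H110.R15.K03

/-! Part of the exhaustive search, see `Pool.Agent.H110.R15.AlgB`. -/

namespace Pool.Agent.H110.R15

theorem kB_14_0 : run CHm 3 5 6 14
  0xfff80bffc06fff03bff81effc0fbfe07eff03fbf81fefc0ffbe07fef03ffb81ffec0fffa01ffe0da569756dccd4b8
  0x200001000008000040000200001000008000040000200001000008000040000200000000000000001ffe103ffe
  0x3ffe = true := by decide +kernel

theorem kA_14_0 : run CH 2 7 4 14
  0xfff80bffe06ffe03bff01eff80fbfc07efe03fbf01fef80ffbc07fee03ffb01ffe80fff8020000d9ac97618ccca28
  0x200001000008000040000200001000008000040000200001000008000040000200000000000000002000203ffe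
  0x3ffe = true := by decide +kernel

theorem kA_3_0 : run CH 2 7 4 3
  0xc07c0be7e06fee01bf700efb007bdc03eec00fb6007eb007f980600f03ffb01ffec0f43a06016110dd22b1d1e21b3
  0x40000200001000008000040000200001000008000040000200001000000000040000200000000000000006016207ff6
  0x7ff6 = true := by decide +kernel

theorem kC_14_0 : run CH 2 6 5 14
  0xfff80bffc06fff03bff81effc0fbfe07eff03fbf81fefc0ffbe07fef03ffb81ffec0fffa01ffe0da569756dccd4b8
  0x200001000008000040000200001000008000040000200001000008000040000200000000000000002000103ffe
  0x3ffe = true := by decide +kernel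

theorem kB_3_0 : run CHm 3 5 6 3
  0xc0780be7c06fef01bf780efb407bde03eed00fb6807eb407f9a0600e03ffb01ffe80f43801fe010f8322a681c2a83
  0x40000200001000008000040000200001000008000040000200001000000000040000200000000000000001fe0107ff6
  0x7ff6 = true := by decide +kernel

theorem kD_2_0 : run CHm 2 6 5 2
  0x805c0b42e02fec01bf6006fb007bd801eec00fb6007eb003f980600700ff201ffe80c02a060121ffda4e8f3120b40
  0x40000200001000008000040000200001000008000040000200001000008000000000200000000000000001fe8107ffa
  0x7ffa = true := by decide +kernel

theorem kC_12_0 : run CH 2 6 5 12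
  0xc0780a43c06ffe00bf0806f8407bc201ee100fb0807e8403f820700e0380b01c0680e03800fe01e6e1d3ca81a0478
  0x4000020000000000800004000020000100000800004000020000100000800004000020000000000000000601e106ffe
  0x6ffe = true := by decide +kernel

end Pool.Agent.H110.R15
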