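import Pool.Agent.H110.R15.K04

/-! Part of the exhaustive search, see `Pool.Agent.H110.R15.AlgB`. -/

namespace Pool.Agent.H110.R15

theorem kB_13_0 : run CHm 3 5 6 13
  0xfffc0bffc06fff03bff81effc0fbfe07eff03fbf81fefc0ffbe07fef03ffb81ffec0fffa05ffe0dc569756dced4b8
  0x40000000001000008000040000200001000008000040000200001000008000040000200000000000000005ffe105ffe
  0x5ffe = true := by decide +kernel

theorem kB_4_0 : run CHm 3 5 6 4
  0xfff80bffc06fff03bff81effc0fbfe07eff03fbf81fefc0ffbe07fee03ffb81ffec0fff801fec0da5697568ccd428
  0x40000200001000008000040000200001000008000040000200000000008000040000200000000000000001fec107fee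
  0x7fee = true := by decide +kernel

theorem kC_8_0 : run CH 2 6 5 8
  0xfff80bffc06ffe03bff01eff80fbfe07efe03fbf01fef80ffbc07fee03ffb01ffe80fff8002000d9ac97518cbdc28
  0x40000200001000008000040000200000000008000040000200001000008000040000200000000000000007cfe107efe
  0x7efe = true := by decide +kernel

theorem kD_6_0 : run CHm 2 6 5 6
  0xfdfc0bffe06fff03bff01eff80fbfc07eee01fb701fef80ffbc07e6f03ffb81ffec0fffa0701e1d9ae56f1dcf5337
  0x40000200001000008000040000200001000008000000000200001000008000040000200000000000000000fa0107fbe
  0x7fbe = true := by decide +kernel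

theorem kD_3_0 : run CHm 2 6 5 3
  0xc07c0be7e06fee01bf700efb007bdc03eec00fb6007eb007f980600f03ffb01ffec0f43a06016110dd22b1d1e21b3
  0x40000200001000008000040000200001000008000040000200001000000000040000200000000000000001fe0107ff6
  0x7ff6 = true := by decide +kernel

theorem kD_9_0 : run CHm 2 6 5 9
  0xfffc0bffe06fff03bff81effc0fbfc07eff03fbf81fefc0ffbe07fef03ffb81ffec0fffa07dfe0dc569766dcfc2b8
  0x40000200001000008000040000000001000008000040000200001000008000040000200000000000000000000107dfe
  0x7dfe = true := by decide +kernel

theorem kD_11_0 : run CHm 2 6 5 11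
  0xe17c0b4be06a5f03bff002e8007b4800ea00079001e07c01f000784f03c2b81e96c0f0ba0705e001bc0929d1cdda8
  0x400002000010000000000400002000010000080000400002000010000080000400002000000000000000007a01077fe
  0x77fe = true := by decide +kernel

theorem kC_9_0 : run CH 2 6 5 9
  0xfff80bffc06ffe03bff01eff80fbfc07efe03fbf01fef80ffbc07fee03ffb01ffe80fff8000000d9ac97518cbca28
  0x40000200001000008000040000000001000008000040000200001000008000040000200000000000000007dfe107dfe
  0x7dfe = true := by decide +kernel

end Pool.Agent.H110.R15
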