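import Pool.Agent.H110.R15.Base

namespace Pool.Agent.H110.R15

open Pool.Agent.H110.Refl

/-- the points of the set, in the order of a simple polygon -/
def PL : List (ℤ × ℤ) :=
  [(1597918327, -1965293554), (-564176392, -11680235), (-694430949, 539042255), (-359621011, 203346902), (819542, -330370152), (417574104, 415649689), (201695827, -67330742), (530604000, -34010033), (546900777, 196100438), (529863671, 1171362420), (5111262, 510088040), (-242469445, 724063258), (-705010503, 747434280), (-2042673255, 550326366), (-247134076, -409740051)]

end Pool.Agent.H110.R15
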