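import Mathlib
import Pool.Agent.H110.R15.AlgB
import Pool.Agent.H110.Refl.StmA

namespace Pool.Agent.H110.R15

open Pool.Agent.H110.Refl

theorem land_def (a b : ℕ) : Nat.land a b = a &&& b := rfl
theorem lor_def (a b : ℕ) : Nat.lor a b = a ||| b := rfl
theorem shr_def (a b : ℕ) : Nat.shiftRight a b = a >>> b := rfl
theorem shl_def (a b : ℕ) : Nat.shiftLeft a b = a <<< b := rfl
theorem add_def (a b : ℕ) : Nat.add a b = a + b := rfl
theorem mul_def (a b : ℕ) : Nat.mul a b = a * b := rfl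
theorem sub_def (a b : ℕ) : Nat.sub a b = a - b := rfl
theorem mod_def (a b : ℕ) : Nat.mod a b = a % b := rfl
theorem pow_def (a b : ℕ) : Nat.pow a b = a ^ b := rfl

/-- the guard bits of a set of vertices -/
def hs (T : Finset ℕ) : ℕ := ∑ y ∈ T, 2 ^ (21 * y)

theorem gs_eq (T : Finset ℕ) : gs T = vs T + 2 ^ 84 * hs T := by
  simp only [gs, vs, hs, Finset.sum_add_distrib, Finset.mul_sum, pow_add]

theorem vs_testBit (T : Finset ℕ) (y : ℕ) : (vs T).testBit y = true ↔ y ∈ T := by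
  rw [← Nat.mem_bitIndices, ← List.mem_toFinset]
  unfold vs
  rw [Finset.toFinset_bitIndices_sum_two_pow]

theorem vs_lt (T : Finset ℕ) (h : ∀ y ∈ T, y < 19) : vs T < 2 ^ 19 := by
  have : vs T ≤ ∑ y ∈ Finset.range 19, 2 ^ y :=
    Finset.sum_le_sum_of_subset (fun y hy => Finset.mem_range.2 (h y hy))
  exact lt_of_le_of_lt this (by decide)

theorem hs_lt (T : Finset ℕ) (h : ∀ y ∈ T, y < 19) : hs T < 2 ^ 399 := by
  have : hs T ≤ ∑ y ∈ Finset.range 19, 2 ^ (21 * y) :=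
    Finset.sum_le_sum_of_subset (fun y hy => Finset.mem_range.2 (h y hy))
  exact lt_of_le_of_lt this (by decide +kernel)

/-- code of a state -/
def G (T : Finset ℕ) (b L : ℕ) : ℕ := gs T + (b * 2 ^ 20 + L * 2 ^ 24)

theorem G_eq (T : Finset ℕ) (b L : ℕ) : G T b L = vs T + 2 ^ 20 * b + 2 ^ 24 * L + 2 ^ 84 * hs T := by
  rw [G, gs_eq]; ring

theorem G_budget (T : Finset ℕ) (b L : ℕ) (h : ∀ y ∈ T, y < 19) (hb : b < 16) :
    Nat.land (Nat.shiftRight (G T b L) 20) 15 = b := by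
  rw [land_def, shr_def, show (15 : ℕ) = 2 ^ 4 - 1 from rfl, Nat.and_two_pow_sub_one_eq_mod, Nat.shiftRight_eq_div_pow,
    G_eq]
  have := vs_lt T h
  omega

theorem G_unv (T : Finset ℕ) (b L : ℕ) (h : ∀ y ∈ T, y < 19) :
    Nat.land (G T b L) 524287 = vs T := by
  rw [land_def, show (524287 : ℕ) = 2 ^ 19 - 1 from rfl, Nat.and_two_pow_sub_one_eq_mod, G_eq]
  have := vs_lt T h
  omega

theorem G_left (T : Finset ℕ) (b L : ℕ) (h : ∀ y ∈ T, y < 19) (hb : b < 16) (hL : L < 2 ^ 19) :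
    Nat.land (Nat.shiftRight (G T b L) 24) 524287 = L := by
  rw [land_def, shr_def, show (524287 : ℕ) = 2 ^ 19 - 1 from rfl, Nat.and_two_pow_sub_one_eq_mod,
    Nat.shiftRight_eq_div_pow, G_eq]
  have := vs_lt T h
  omega

theorem bit_eq (a i : ℕ) : bit a i = (a.testBit i).toNat := by
  unfold bit
  rw [land_def, shr_def, Nat.and_one_is_mod, Nat.testBit, Nat.and_comm, Nat.and_one_is_mod]
  rcases Nat.mod_two_eq_zero_or_one (a >>> i) with h | h <;> simp [h]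

theorem G_bit (T : Finset ℕ) (b L x : ℕ) (h : ∀ y ∈ T, y < 19) (hb : b < 16) (hL : L < 2 ^ 19) (hx : x < 19) :
    bit (G T b L) (Nat.add 24 x) = (L.testBit x).toNat := by
  rw [bit_eq, add_def]
  have h1 := G_left T b L h hb hL
  rw [land_def, shr_def, show (524287 : ℕ) = 2 ^ 19 - 1 from rfl, Nat.and_two_pow_sub_one_eq_mod] at h1
  generalize G T b L = g at *
  rw [← h1, Nat.testBit_mod_two_pow, Nat.testBit_shiftRight]; simp [hx]

theorem land_split (l l' h h' : ℕ) (hl : l < 2 ^ 64) (hl' : l' < 2 ^ 64) :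
    (2 ^ 64 * h + l) &&& (2 ^ 64 * h' + l') = 2 ^ 64 * (h &&& h') + (l &&& l') := by
  have hll : l &&& l' < 2 ^ 64 := Nat.and_lt_two_pow _ hl'
  apply Nat.eq_of_testBit_eq
  intro i
  rw [Nat.testBit_and, Nat.testBit_two_pow_mul_add _ hl, Nat.testBit_two_pow_mul_add _ hl',
    Nat.testBit_two_pow_mul_add _ hll]
  split <;> simp

theorem G_clear (T : Finset ℕ) (b L : ℕ) (h : ∀ y ∈ T, y < 19) (hb : b < 16) (hL : L < 2 ^ 19) :
    Nat.land (G T b L) GM = gs T := by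
  have h1 : GM = 2 ^ 64 * (2 ^ 420 - 1) + (2 ^ 19 - 1) := by decide +kernel
  have h2 := vs_lt T h
  have h3 := hs_lt T h
  have h4 : G T b L = 2 ^ 64 * (2 ^ 20 * hs T) + (vs T + 2 ^ 20 * b + 2 ^ 24 * L) := by rw [G_eq]; ring
  have h5 : vs T + 2 ^ 20 * b + 2 ^ 24 * L < 2 ^ 64 := by omega
  rw [land_def, h1, h4, land_split _ _ _ _ h5 (by norm_num), Nat.and_two_pow_sub_one_eq_mod, Nat.and_two_pow_sub_one_eq_mod,
    Nat.mod_eq_of_lt (a := 2 ^ 20 * hs T), gs_eq]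
  · have : (vs T + 2 ^ 20 * b + 2 ^ 24 * L) % 2 ^ 19 = vs T := by omega
    rw [this]; ring
  · calc 2 ^ 20 * hs T < 2 ^ 20 * 2 ^ 399 := by omega
      _ ≤ 2 ^ 420 := by decide +kernel

theorem gs_erase (T : Finset ℕ) (x : ℕ) (hx : x ∈ T) : Nat.sub (gs T) (kx x) = gs (T.erase x) := by
  have : gs T = gs (T.erase x) + (2 ^ x + 2 ^ (84 + 21 * x)) := by
    unfold gs; rw [Finset.sum_erase_add _ _ hx]
  rw [sub_def, this, kx, add_def, shl_def, shl_def, add_def, mul_def, Nat.one_shiftLeft, Nat.one_shiftLeft,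
    Nat.add_sub_cancel]

theorem G_add (T : Finset ℕ) (b L e : ℕ) : Nat.add (G T b L) (Nat.shiftLeft e 20) = G T (b + e) L := by
  rw [add_def, shl_def, Nat.shiftLeft_eq, G, G]; ring

end Pool.Agent.H110.R15
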