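import Pool.Agent.H110.R15.Pts
import Pool.Agent.H110.R15.Chk

namespace Pool.Agent.H110.R15

open Pool.Agent.H110.Refl

theorem ori_chk : ((List.range 15).all fun a => (List.range 15).all fun b => (List.range 15).all fun c =>
    decide (a = b) || decide (b = c) || decide (a = c) ||
    (decide (0 < zturn (zv PL a) (zv PL b) (zv PL c)) && ob CH a b c && !ob CHm a b c) ||
    (decide (zturn (zv PL a) (zv PL b) (zv PL c) < 0) && !ob CH a b c && ob CHm a b c)) = true := by
  decide +kernel

theorem ori (a b c : ℕ) (ha : a < 15) (hb : b < 15) (hc : c < 15) (h1 : a ≠ b) (h2 : b ≠ c) (h3 : a ≠ c) :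
    (0 < zturn (zv PL a) (zv PL b) (zv PL c) ∧ ob CH a b c = true ∧ ob CHm a b c = false) ∨
    (zturn (zv PL a) (zv PL b) (zv PL c) < 0 ∧ ob CH a b c = false ∧ ob CHm a b c = true) := by
  have h := ori_chk
  rw [List.all_eq_true] at h
  have h4 := h a (List.mem_range.2 ha)
  rw [List.all_eq_true] at h4
  have h5 := h4 b (List.mem_range.2 hb)
  rw [List.all_eq_true] at h5
  have h6 := h5 c (List.mem_range.2 hc)
  simp only [Bool.or_eq_true, Bool.and_eq_true, decide_eq_true_eq, Bool.not_eq_true'] at h6
  tauto

theorem msk_chk : mskChk 15 = true := by decide +kernel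

theorem PL_length : PL.length = 15 := by decide +kernel
theorem PL_nodup : PL.Nodup := by decide +kernel
theorem PL_chk : chkPoly PL = true := by decide +kernel
theorem Sv_lt : Sv < 15 := by decide +kernel
theorem Ssh_eq : Ssh = 64 + 21 * Sv := by decide +kernel

end Pool.Agent.H110.R15
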